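import Mathlib
import Pool.Agent.Helper81.XP.All

set_option autoImplicit false

open Pointwise

namespace Pool.Agent.Results.MP_f90738_co.FewExceptions

/-- For every `r` and every `δ > 0` there is `ε > 0` such that for every prime `p` all generating
sets `S` of `SL_2(Z/p)` with at most `r` elements, outside at most `p ^ δ` conjugacy classes,
satisfy the expansion inequality with the constant `ε`. -/
theorem result (r : ℕ) (δ : ℝ) (hδ : 0 < δ) :
    ∃ ε : ℝ, 0 < ε ∧ ∀ p : ℕ, p.Prime →
      ∃ R : Finset (Finset (Matrix.SpecialLinearGroup (Fin 2) (ZMod p))),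
        (R.card : ℝ) ≤ (p : ℝ) ^ δ ∧
        ∀ S : Finset (Matrix.SpecialLinearGroup (Fin 2) (ZMod p)), S.card ≤ r →
          Subgroup.closure (S : Set (Matrix.SpecialLinearGroup (Fin 2) (ZMod p))) = ⊤ →
          (∀ Q ∈ R, ∀ g : Matrix.SpecialLinearGroup (Fin 2) (ZMod p),
            S ≠ Q.image (fun x => g * x * g⁻¹)) →
          ∀ X : Finset (Matrix.SpecialLinearGroup (Fin 2) (ZMod p)),
            2 * X.card ≤ Nat.card (Matrix.SpecialLinearGroup (Fin 2) (ZMod p)) →
            ε * (X.card : ℝ) ≤ ((((S ∪ S⁻¹) * X) \ X).card : ℝ) := by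
  obtain ⟨ε, hε, h⟩ := Pool.Agent.Helper81.XP.classes_p Pool.Agent.Helper81.XP.main_all.1
    Pool.Agent.Helper81.XP.main_all.2.1 Pool.Agent.Helper81.XP.main_all.2.2 r 1 δ hδ
  exact ⟨ε, hε, fun p hp => (h p hp).1⟩

end Pool.Agent.Results.MP_f90738_co.FewExceptions
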